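import Pool.Agent.Helper61.PV.St

set_option autoImplicit false

namespace Pool.Agent.Helper9.PV

open Pool.Agent.Helper61.PV Finset

/-- partial sums over the primes -/
theorem sumsq_even (k : ℕ) (hk : 2 ≤ k) :
    ∑ p ∈ (Icc 1 (2 * k)).filter Nat.Prime, 1 / (p : ℝ) ^ 2 ≤
      1 / 4 + 1 / 9 + 1 / 8 - 1 / (4 * (k : ℝ)) := by
  induction k, hk using Nat.le_induction with
  | base =>
    have h : (Icc 1 (2 * 2)).filter Nat.Prime = {2, 3} := by decide
    rw [h]
    rw [Finset.sum_pair (by norm_num)]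
    norm_num
  | succ k hk ih =>
    have hk0 : (0 : ℝ) < k := by positivity
    have hsub : (Icc 1 (2 * (k + 1))).filter Nat.Prime ⊆
        insert (2 * k + 1) ((Icc 1 (2 * k)).filter Nat.Prime) := by
      intro p hp
      simp only [mem_filter, mem_Icc, mem_insert] at hp ⊢
      obtain ⟨⟨h1, h2⟩, h3⟩ := hp
      by_cases h4 : p ≤ 2 * k
      · exact Or.inr ⟨⟨h1, h4⟩, h3⟩
      · left
        by_contra h5
        have h6 : p = 2 * (k + 1) := by omega
        rw [h6] at h3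
        exact Nat.not_prime_mul (by norm_num) (by omega) h3
    have h1 : ∑ p ∈ (Icc 1 (2 * (k + 1))).filter Nat.Prime, 1 / (p : ℝ) ^ 2 ≤
        ∑ p ∈ insert (2 * k + 1) ((Icc 1 (2 * k)).filter Nat.Prime), 1 / (p : ℝ) ^ 2 := by
      apply Finset.sum_le_sum_of_subset_of_nonneg hsub
      intro i _ _
      positivity
    have hni : (2 * k + 1) ∉ (Icc 1 (2 * k)).filter Nat.Prime := by
      simp
    rw [Finset.sum_insert hni] at h1
    have h2 : 1 / (((2 * k + 1 : ℕ) : ℝ)) ^ 2 ≤ 1 / (4 * (k : ℝ)) - 1 / (4 * ((k + 1 : ℕ) : ℝ)) := by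
      have e : 1 / (4 * (k : ℝ)) - 1 / (4 * ((k + 1 : ℕ) : ℝ)) = 1 / (4 * (k : ℝ) * (k + 1)) := by
        push_cast
        field_simp
        ring
      rw [e]
      apply one_div_le_one_div_of_le (by positivity)
      push_cast
      nlinarith
    linarith

theorem sumsq (H : ℕ) :
    ∑ p ∈ (Icc 1 H).filter Nat.Prime, 1 / (p : ℝ) ^ 2 ≤ 35 / 72 := by
  have h := sumsq_even (H + 2) (by omega)
  have h1 : ∑ p ∈ (Icc 1 H).filter Nat.Prime, 1 / (p : ℝ) ^ 2 ≤
      ∑ p ∈ (Icc 1 (2 * (H + 2))).filter Nat.Prime, 1 / (p : ℝ) ^ 2 := by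
    apply Finset.sum_le_sum_of_subset_of_nonneg
    · intro p hp
      simp only [mem_filter, mem_Icc] at hp ⊢
      exact ⟨⟨hp.1.1, by omega⟩, hp.2⟩
    · intro i _ _
      positivity
  have h2 : (0 : ℝ) ≤ 1 / (4 * ((H + 2 : ℕ) : ℝ)) := by positivity
  linarith

theorem suminv (H : ℕ) :
    ∑ p ∈ (Icc 1 H).filter Nat.Prime, 1 / (p : ℝ) ≤ 1 + Real.log H := by
  have h0 := harmonic_le_one_add_log H
  rw [harmonic_eq_sum_Icc] at h0
  push_cast at h0
  refine le_trans ?_ h0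
  have : ∑ p ∈ (Icc 1 H).filter Nat.Prime, 1 / (p : ℝ) ≤ ∑ p ∈ Icc 1 H, 1 / (p : ℝ) := by
    apply Finset.sum_le_sum_of_subset_of_nonneg (Finset.filter_subset _ _)
    intro i _ _
    positivity
  refine this.trans (le_of_eq ?_)
  apply Finset.sum_congr rfl
  intro i _
  rw [one_div]

theorem hSa2 : StSa2 := by
  have hlim : Filter.Tendsto (fun x : ℝ => Real.log x / x) Filter.atTop (nhds 0) := by
    simpa using Real.isLittleO_log_id_atTop.tendsto_div_nhds_zero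
  have hev : ∀ᶠ x : ℝ in Filter.atTop, Real.log x / x < 1 / 1000 :=
    hlim.eventually (gt_mem_nhds (by norm_num))
  obtain ⟨X, hX⟩ := Filter.eventually_atTop.1 hev
  refine ⟨max 1000 ⌈X⌉₊, fun H hH => ?_⟩
  have hH1 : 1000 ≤ H := le_trans (le_max_left _ _) hH
  have hHX : X ≤ (H : ℝ) := le_trans (Nat.le_ceil X) (by exact_mod_cast le_trans (le_max_right _ _) hH)
  have hHr : (1000 : ℝ) ≤ H := by exact_mod_cast hH1
  have hH0 : (0 : ℝ) < H := by linarith
  have hlog := hX H hHX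
  set F := (Icc 1 H).filter Nat.Prime with hF
  have hcard : (F.card : ℝ) ≤ H := by
    have : F.card ≤ H := by
      calc F.card ≤ (Icc 1 H).card := Finset.card_filter_le _ _
        _ = H := by simp
    exact_mod_cast this
  have e1 : ∑ p ∈ F, (1 / (p : ℝ) + 1 / (2 * H + 1)) * (1 / p + 1 / H) =
      ∑ p ∈ F, 1 / (p : ℝ) ^ 2 + (1 / (2 * (H : ℝ) + 1) + 1 / H) * ∑ p ∈ F, 1 / (p : ℝ) +
        F.card * (1 / (2 * (H : ℝ) + 1) * (1 / H)) := by
    rw [Finset.mul_sum, ← nsmul_eq_mul, ← Finset.sum_const, ← Finset.sum_add_distrib,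
      ← Finset.sum_add_distrib]
    apply Finset.sum_congr rfl
    intro p _
    ring
  have hA : 1 / (2 * (H : ℝ) + 1) ≤ 1 / (2 * H) :=
    one_div_le_one_div_of_le (by positivity) (by linarith)
  have hA' : 1 / (2 * (H : ℝ)) = (1 / 2) * (1 / H) := by
    field_simp
  have hB : 1 / (H : ℝ) ≤ 1 / 1000 := one_div_le_one_div_of_le (by norm_num) hHr
  have hA0 : 0 ≤ 1 / (2 * (H : ℝ) + 1) := by positivity
  have hB0 : 0 ≤ 1 / (H : ℝ) := by positivity
  have hcB : (F.card : ℝ) * (1 / H) ≤ 1 := by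
    rw [mul_one_div, div_le_one hH0]
    exact hcard
  have hlB : Real.log H * (1 / H) < 1 / 1000 := by
    rw [mul_one_div]
    exact hlog
  have hs1 := sumsq H
  have hs2 := suminv H
  have hs0 : 0 ≤ ∑ p ∈ F, 1 / (p : ℝ) := Finset.sum_nonneg fun i _ => by positivity
  rw [e1]
  have t1 : (1 / (2 * (H : ℝ) + 1) + 1 / H) * ∑ p ∈ F, 1 / (p : ℝ) ≤
      (3 / 2 * (1 / H)) * (1 + Real.log H) := by
    apply mul_le_mul _ hs2 hs0 (by positivity)
    linarith
  have t2 : (F.card : ℝ) * (1 / (2 * (H : ℝ) + 1) * (1 / H)) ≤ 1 / (2 * (H : ℝ) + 1) := by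
    calc (F.card : ℝ) * (1 / (2 * (H : ℝ) + 1) * (1 / H))
        = 1 / (2 * (H : ℝ) + 1) * ((F.card : ℝ) * (1 / H)) := by ring
      _ ≤ 1 / (2 * (H : ℝ) + 1) * 1 := mul_le_mul_of_nonneg_left hcB hA0
      _ = _ := mul_one _
  have t3 : (3 / 2 * (1 / (H : ℝ))) * (1 + Real.log H) =
      3 / 2 * (1 / H) + 3 / 2 * (Real.log H * (1 / H)) := by ring
  rw [t3] at t1
  linarith

end Pool.Agent.Helper9.PV
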