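import Pool.Agent.Helper92.PV.St

set_option autoImplicit false

open Finset

namespace Pool.Agent.Helper9.PV

open Pool.Agent.Helper92.PV Pool.Agent.Helper92.PU Pool.Agent.Helper92.PW

private lemma shift (b s : ℝ) (f : ℝ → ℝ) (M : ℕ) :
    ∑ j ∈ range (M + 1), f (s - b * j) = f s + ∑ j ∈ range M, f (s - b - b * j) := by
  rw [Finset.sum_range_succ']
  rw [add_comm]
  congr 1
  · simp
  · refine Finset.sum_congr rfl fun j _ => ?_
    congr 1
    push_cast
    ring

private lemma lin (b : ℝ) (hb : 0 < b) : ∀ (M : ℕ) (s : ℝ),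
    ∑ j ∈ range M, max 0 (s - b * j) ≤ max 0 s + (max 0 s) ^ 2 / (2 * b) := by
  intro M
  induction M with
  | zero =>
    intro s
    have : 0 ≤ max 0 s := le_max_left _ _
    simp only [range_zero, sum_empty]
    positivity
  | succ M ih =>
    intro s
    rw [shift b s (fun x => max 0 x) M]
    have h1 := ih (s - b)
    have h2 : max 0 (s - b) + (max 0 (s - b)) ^ 2 / (2 * b) ≤ (max 0 s) ^ 2 / (2 * b) := by
      rcases le_total s b with h | h
      · rw [max_eq_left (by linarith : s - b ≤ 0)]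
        have : 0 ≤ (max 0 s) ^ 2 / (2 * b) := by positivity
        simpa using this
      · rw [max_eq_right (by linarith : 0 ≤ s - b), max_eq_right (by linarith : 0 ≤ s)]
        rw [← sub_nonneg]
        have : s ^ 2 / (2 * b) - (s - b + (s - b) ^ 2 / (2 * b)) = b / 2 := by
          field_simp
          ring
        rw [this]
        positivity
    show max 0 s + _ ≤ _
    linarith

private lemma quad (a : ℝ) (ha : 0 < a) : ∀ (M : ℕ) (s : ℝ),
    ∑ i ∈ range M, (max 0 (s - a * i)) ^ 2 ≤ (max 0 s) ^ 2 + (max 0 s) ^ 3 / (3 * a) := by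
  intro M
  induction M with
  | zero =>
    intro s
    have : 0 ≤ max 0 s := le_max_left _ _
    simp only [range_zero, sum_empty]
    positivity
  | succ M ih =>
    intro s
    rw [shift a s (fun x => (max 0 x) ^ 2) M]
    have h1 := ih (s - a)
    have h2 : (max 0 (s - a)) ^ 2 + (max 0 (s - a)) ^ 3 / (3 * a) ≤ (max 0 s) ^ 3 / (3 * a) := by
      rcases le_total s a with h | h
      · rw [max_eq_left (by linarith : s - a ≤ 0)]
        have h0 : 0 ≤ max 0 s := le_max_left _ _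
        have : 0 ≤ (max 0 s) ^ 3 / (3 * a) := by positivity
        simpa using this
      · rw [max_eq_right (by linarith : 0 ≤ s - a), max_eq_right (by linarith : 0 ≤ s)]
        rw [← sub_nonneg]
        have : s ^ 3 / (3 * a) - ((s - a) ^ 2 + (s - a) ^ 3 / (3 * a)) = a * (s - a) + a ^ 2 / 3 := by
          field_simp
          ring
        rw [this]
        have : 0 ≤ s - a := by linarith
        positivity
    show (max 0 s) ^ 2 + _ ≤ _
    linarith

private lemma inner0 (b : ℝ) (hb : 0 ≤ b) (M : ℕ) (s : ℝ) (hs : s ≤ 0) :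
    ∑ j ∈ range M, max 0 (s - b * j) = 0 := by
  refine Finset.sum_eq_zero fun j _ => ?_
  apply max_eq_left
  have : (0 : ℝ) ≤ b * j := by positivity
  linarith

private lemma inner1 (M : ℕ) (s : ℝ) (hs : s ≤ 3) :
    ∑ j ∈ range M, max 0 (s - 3 * j) ≤ max 0 s := by
  cases M with
  | zero =>
    simp only [range_zero, sum_empty]
    exact le_max_left _ _
  | succ M =>
    rw [shift 3 s (fun x => max 0 x) M]
    have := inner0 3 (by norm_num) M (s - 3) (by linarith)
    show max 0 s + ∑ j ∈ range M, max 0 (s - 3 - 3 * j) ≤ _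
    rw [this]
    simp

private lemma inner2 (M : ℕ) (s : ℝ) (hs : s ≤ 6) :
    ∑ j ∈ range M, max 0 (s - 3 * j) ≤ max 0 s + max 0 (s - 3) := by
  cases M with
  | zero =>
    simp only [range_zero, sum_empty]
    exact add_nonneg (le_max_left _ _) (le_max_left _ _)
  | succ M =>
    rw [shift 3 s (fun x => max 0 x) M]
    have := inner1 M (s - 3) (by linarith)
    show max 0 s + ∑ j ∈ range M, max 0 (s - 3 - 3 * j) ≤ _
    linarith

private lemma part1 (a T : ℝ) (M : ℕ) (ha : 0 < a) (hT : 0 ≤ T) :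
    ∑ i ∈ range M, ∑ j ∈ range M, max 0 (T - a * i - 3 * j) ≤
      T ^ 3 / (18 * a) + T ^ 2 * (1 / (2 * a) + 1 / 6) + T := by
  have h1 : ∑ i ∈ range M, ∑ j ∈ range M, max 0 (T - a * i - 3 * j) ≤
      ∑ i ∈ range M, (max 0 (T - a * i) + (max 0 (T - a * i)) ^ 2 / (2 * 3)) :=
    Finset.sum_le_sum fun i _ => lin 3 (by norm_num) M (T - a * i)
  rw [Finset.sum_add_distrib, ← Finset.sum_div] at h1
  have h2 := lin a ha M T
  have h3 := quad a ha M T
  rw [max_eq_right hT] at h2 h3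
  have h4 : T ^ 3 / (18 * a) + T ^ 2 * (1 / (2 * a) + 1 / 6) + T
      = (T + T ^ 2 / (2 * a)) + (T ^ 2 + T ^ 3 / (3 * a)) / (2 * 3) := by
    field_simp
    ring
  rw [h4]
  refine h1.trans (add_le_add h2 ?_)
  exact div_le_div_of_nonneg_right h3 (by norm_num)

private lemma part2 (a : ℝ) (M : ℕ) (ha : 3 / 4 ≤ a) :
    ∑ i ∈ range M, ∑ j ∈ range M, max 0 (15 / 4 - a * i - 3 * j) ≤ 12 := by
  have h1 : ∑ i ∈ range M, ∑ j ∈ range M, max 0 (15 / 4 - a * i - 3 * j) ≤
      ∑ i ∈ range M, (max 0 (15 / 4 - 3 / 4 * (i : ℝ)) + max 0 (3 / 4 - 3 / 4 * (i : ℝ))) := by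
    refine Finset.sum_le_sum fun i _ => ?_
    have hi : (0 : ℝ) ≤ i := Nat.cast_nonneg i
    have hai : 3 / 4 * (i : ℝ) ≤ a * i := mul_le_mul_of_nonneg_right ha hi
    refine (inner2 M (15 / 4 - a * i) (by linarith)).trans ?_
    apply add_le_add
    · exact max_le_max le_rfl (by linarith)
    · exact max_le_max le_rfl (by linarith)
  refine h1.trans ?_
  set c : ℕ → ℝ := fun i => max 0 (15 / 4 - 3 / 4 * (i : ℝ)) + max 0 (3 / 4 - 3 / 4 * (i : ℝ)) with hc
  have hc0 : ∀ i, 0 ≤ c i := fun i => add_nonneg (le_max_left _ _) (le_max_left _ _)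
  have hc5 : ∀ i, 5 ≤ i → c i = 0 := by
    intro i hi
    have hi' : (5 : ℝ) ≤ i := by exact_mod_cast hi
    simp only [hc]
    rw [max_eq_left (by linarith), max_eq_left (by linarith), add_zero]
  have h5 : ∑ i ∈ range 5, c i = 12 := by
    simp only [hc, Finset.sum_range_succ, Finset.sum_range_zero]
    norm_num
  rw [← h5]
  rcases le_total M 5 with h | h
  · exact Finset.sum_le_sum_of_subset_of_nonneg (Finset.range_subset_range.mpr h)
      (fun i _ _ => hc0 i)
  · apply le_of_eq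
    symm
    apply Finset.sum_subset (Finset.range_subset_range.mpr h)
    intro i _ hi
    apply hc5
    rw [Finset.mem_range] at hi
    omega

/-- SUM. -/
theorem hSUM : StSUM := by
  refine ⟨part1, part2, ?_⟩
  intro a ha
  have ha0 : 0 < a := by linarith
  set δ : ℝ := 1 / 4 - 3 / (16 * a) with hδ
  have hδ0 : 0 < δ := by
    rw [hδ, sub_pos, div_lt_div_iff₀ (by positivity) (by norm_num)]
    linarith
  obtain ⟨D, hD⟩ := exists_nat_ge (5 / δ)
  have hDδ : 5 ≤ δ * D := by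
    rw [div_le_iff₀ hδ0] at hD
    linarith
  have hD1 : 1 ≤ D := by
    rcases Nat.eq_zero_or_pos D with h | h
    · rw [h] at hDδ
      norm_num at hDδ
    · exact h
  have hD1' : (1 : ℝ) ≤ D := by exact_mod_cast hD1
  obtain ⟨n, hn⟩ : ∃ n : ℕ, 2 * n = (D + 1) * (D + 2) := by
    obtain ⟨n, hn⟩ := Nat.even_mul_succ_self (D + 1)
    refine ⟨n, ?_⟩
    have : (D + 1) * (D + 2) = (D + 1) * (D + 1 + 1) := by ring
    rw [this, hn]
    ring
  refine ⟨D, n, hD1, hn, fun M => ?_⟩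
  have h1 := part1 a (3 / 2 * D) M ha0 (by positivity)
  have hn' : (2 : ℝ) * n = (D + 1) * (D + 2) := by exact_mod_cast hn
  have h2 : (n : ℝ) * D - n * (3 / 2 * D) = -((D + 1) * (D + 2) * D) / 4 := by
    have : (n : ℝ) = (D + 1) * (D + 2) / 2 := by linarith
    rw [this]
    ring
  have h3 : (3 / 2 * (D : ℝ)) ^ 3 / (18 * a) = 3 / (16 * a) * D ^ 3 := by
    field_simp
    ring
  have h4 : 1 / (2 * a) + 1 / 6 ≤ 5 / 6 := by
    have : 1 / (2 * a) ≤ 2 / 3 := by
      rw [div_le_div_iff₀ (by positivity) (by norm_num)]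
      linarith
    linarith
  have h5 : (3 / 2 * (D : ℝ)) ^ 2 * (1 / (2 * a) + 1 / 6) ≤ 15 / 8 * D ^ 2 := by
    calc (3 / 2 * (D : ℝ)) ^ 2 * (1 / (2 * a) + 1 / 6) ≤ (3 / 2 * (D : ℝ)) ^ 2 * (5 / 6) :=
          mul_le_mul_of_nonneg_left h4 (by positivity)
      _ = 15 / 8 * D ^ 2 := by ring
  have h6 : 3 / (16 * a) = 1 / 4 - δ := by rw [hδ]; ring
  rw [h3, h6] at h1
  rw [h2]
  have h7 : 5 * (D : ℝ) ^ 2 ≤ δ * D ^ 3 := by
    calc 5 * (D : ℝ) ^ 2 ≤ δ * D * D ^ 2 := mul_le_mul_of_nonneg_right hDδ (by positivity)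
      _ = δ * D ^ 3 := by ring
  nlinarith [h1, h5, h7, hD1', mul_nonneg (show (0 : ℝ) ≤ D - 1 by linarith) (show (0 : ℝ) ≤ D by linarith)]

end Pool.Agent.Helper9.PV
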